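import Pool.Agent.helper95.PY2.Spec

/-!
# Project py2 (MP_f6e9a2_nt), row NUB
-/

set_option autoImplicit false

open Finset

namespace Pool.Agent.PY2

theorem NUB_wf_nonneg {p : ℕ} [NeZero p] (R : ℕ) (y : ZMod p) : 0 ≤ wf R y := by
  unfold wf
  positivity

theorem NUB_wf_ge {p : ℕ} [Fact p.Prime] (h1 : LOW_stmt) {R n : ℕ} (hR : 1 ≤ R)
    (hn : 6 * (R * n) ≤ p) : 1 ≤ wf (p := p) R ((n : ℕ) : ZMod p) := by
  have h2 := h1 p R n hn
  unfold wf
  have hR0 : (0 : ℝ) < R := by exact_mod_cast hR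
  set S : ℝ := ‖∑ r ∈ range R, ps ((r : ZMod p) * ((n : ℕ) : ZMod p))‖ with hS
  have hS0 : 0 ≤ S := norm_nonneg _
  rw [div_mul_eq_mul_div, le_div_iff₀ (by positivity)]
  nlinarith

theorem NUB_term {p : ℕ} [Fact p.Prime] (h1 : LOW_stmt) {N L R j : ℕ} {B : Finset (ZMod p)}
    {x : ZMod p} (hL : 1 ≤ L) (hLN : L ≤ N) (hR : 1 ≤ R) (hp : 12 * N * R ≤ p)
    {z : ZMod p × ZMod p} {h : ℕ} (hz : z ∈ pr B L j) (hh : z.2.val = z.1.val + h) :
    (((range N).filter fun n : ℕ => ((n : ℕ) : ZMod p) + z.1 = x * (z.2 - z.1)).card : ℝ) ≤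
      wf R ((h : ZMod p) * x - ((j * L : ℕ) : ZMod p)) := by
  have hNp : N ≤ p := by nlinarith
  set S := (range N).filter fun n : ℕ => ((n : ℕ) : ZMod p) + z.1 = x * (z.2 - z.1) with hS
  rcases S.eq_empty_or_nonempty with he | ⟨n, hn⟩
  · rw [he]
    simpa using NUB_wf_nonneg R _
  · have hcard : S.card ≤ 1 := by
      rw [Finset.card_le_one]
      intro a ha b hb
      rw [hS, mem_filter, mem_range] at ha hb
      have e1 : ((a : ℕ) : ZMod p) = ((b : ℕ) : ZMod p) := by
        have := ha.2.trans hb.2.symm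
        exact add_right_cancel this
      rw [ZMod.natCast_eq_natCast_iff'] at e1
      rw [Nat.mod_eq_of_lt (lt_of_lt_of_le ha.1 hNp),
        Nat.mod_eq_of_lt (lt_of_lt_of_le hb.1 hNp)] at e1
      exact e1
    rw [hS, mem_filter, mem_range] at hn
    have hzc : z.1 ∈ cl B L j := by
      unfold pr at hz
      rw [mem_filter, mem_product] at hz
      exact hz.1.1
    unfold cl at hzc
    rw [mem_filter] at hzc
    have hj : j * L ≤ z.1.val := by
      rw [← hzc.2]
      exact Nat.div_mul_le_self _ _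
    have hj2 : z.1.val < (j + 1) * L := by
      rw [← hzc.2]
      exact Nat.lt_mul_of_div_lt (Nat.lt_succ_self _) (by omega)
    have e1 : z.1 = ((z.1.val : ℕ) : ZMod p) := (ZMod.natCast_zmod_val z.1).symm
    have e2 : z.2 = ((z.2.val : ℕ) : ZMod p) := (ZMod.natCast_zmod_val z.2).symm
    have e3 : z.2 - z.1 = (h : ZMod p) := by
      rw [e2, hh, Nat.cast_add, ← e1]
      ring
    have e4 : (h : ZMod p) * x - ((j * L : ℕ) : ZMod p) =
        ((n + (z.1.val - j * L) : ℕ) : ZMod p) := by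
      have e5 : (h : ZMod p) * x = (n : ZMod p) + z.1 := by
        rw [hn.2, e3, mul_comm]
      rw [e5, Nat.cast_add, Nat.cast_sub hj, ← e1]
      ring
    rw [e4]
    have hm : n + (z.1.val - j * L) ≤ 2 * N := by
      have : z.1.val - j * L < L := by
        rw [Nat.add_mul, one_mul] at hj2
        omega
      omega
    refine le_trans ?_ (NUB_wf_ge h1 hR ?_)
    · exact_mod_cast hcard
    · calc 6 * (R * (n + (z.1.val - j * L))) ≤ 6 * (R * (2 * N)) := by gcongr
        _ = 12 * N * R := by ring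
        _ ≤ p := hp

/-- row NUB -/
theorem NUB (h1 : LOW_stmt) : NUB_stmt := by
  intro p _ N L R B x hL hLN hR hp
  have hpr : ∀ j z, z ∈ pr B L j → ∃ h ∈ Icc 1 L, z.2.val = z.1.val + h := by
    intro j z hz
    unfold pr at hz
    rw [mem_filter, mem_product] at hz
    unfold cl at hz
    rw [mem_filter, mem_filter] at hz
    obtain ⟨⟨⟨-, h2⟩, -, h3⟩, h4⟩ := hz
    refine ⟨z.2.val - z.1.val, ?_, by omega⟩
    rw [mem_Icc]
    have h5 : j * L ≤ z.1.val := by
      rw [← h2]
      exact Nat.div_mul_le_self _ _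
    have h6 : z.2.val < (j + 1) * L := by
      rw [← h3]
      exact Nat.lt_mul_of_div_lt (Nat.lt_succ_self _) (by omega)
    rw [Nat.add_mul, one_mul] at h6
    omega
  have hcell : ∀ j, ((cl B L j).card : ℝ)⁻¹ * ∑ z ∈ pr B L j,
      (((range N).filter fun n : ℕ => ((n : ℕ) : ZMod p) + z.1 = x * (z.2 - z.1)).card : ℝ) ≤
      ∑ h ∈ Icc 1 L, rho B L j h * wf R ((h : ZMod p) * x - ((j * L : ℕ) : ZMod p)) := by
    intro j
    have e1 : ∑ z ∈ pr B L j,
        (((range N).filter fun n : ℕ => ((n : ℕ) : ZMod p) + z.1 = x * (z.2 - z.1)).card : ℝ) ≤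
        ∑ h ∈ Icc 1 L, (((pr B L j).filter fun z => z.2.val = z.1.val + h).card : ℝ) *
          wf R ((h : ZMod p) * x - ((j * L : ℕ) : ZMod p)) := by
      have e2 : ∑ z ∈ pr B L j,
          (((range N).filter fun n : ℕ => ((n : ℕ) : ZMod p) + z.1 = x * (z.2 - z.1)).card : ℝ) ≤
          ∑ z ∈ pr B L j, ∑ h ∈ Icc 1 L, if z.2.val = z.1.val + h then
            wf R ((h : ZMod p) * x - ((j * L : ℕ) : ZMod p)) else 0 := by
        refine Finset.sum_le_sum fun z hz => ?_
        obtain ⟨h, hh, hzh⟩ := hpr j z hz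
        refine (NUB_term h1 hL hLN hR hp hz hzh).trans ?_
        refine le_trans (le_of_eq ?_) (Finset.single_le_sum (f := fun h : ℕ =>
          if z.2.val = z.1.val + h then
            wf R ((h : ZMod p) * x - ((j * L : ℕ) : ZMod p)) else 0) ?_ hh)
        · simp only [hzh, if_true]
        · intro k _
          split_ifs
          · exact NUB_wf_nonneg _ _
          · exact le_rfl
      refine e2.trans (le_of_eq ?_)
      rw [Finset.sum_comm]
      refine Finset.sum_congr rfl fun h _ => ?_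
      rw [← Finset.sum_filter, Finset.sum_const, nsmul_eq_mul]
    calc ((cl B L j).card : ℝ)⁻¹ * _ ≤ ((cl B L j).card : ℝ)⁻¹ *
          ∑ h ∈ Icc 1 L, (((pr B L j).filter fun z => z.2.val = z.1.val + h).card : ℝ) *
          wf R ((h : ZMod p) * x - ((j * L : ℕ) : ZMod p)) :=
          mul_le_mul_of_nonneg_left e1 (by positivity)
      _ = _ := by
          rw [Finset.mul_sum]
          refine Finset.sum_congr rfl fun h _ => ?_
          unfold rho
          rw [mul_assoc]
  have hzero : ∀ j, p / L < j → cl B L j = ∅ := by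
    intro j hj
    rw [Finset.eq_empty_iff_forall_notMem]
    intro b hb
    unfold cl at hb
    rw [mem_filter] at hb
    have h2 : b.val / L ≤ p / L := Nat.div_le_div_right (ZMod.val_lt b).le
    omega
  unfold nu
  have e0 : ∑ j ∈ range p, ((cl B L j).card : ℝ)⁻¹ * ∑ z ∈ pr B L j,
      (((range N).filter fun n : ℕ => ((n : ℕ) : ZMod p) + z.1 = x * (z.2 - z.1)).card : ℝ) ≤
      ∑ j ∈ range (p / L + 1), ((cl B L j).card : ℝ)⁻¹ * ∑ z ∈ pr B L j,
      (((range N).filter fun n : ℕ => ((n : ℕ) : ZMod p) + z.1 = x * (z.2 - z.1)).card : ℝ) := by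
    have e1 : ∑ j ∈ (range p).filter (fun j => j < p / L + 1), ((cl B L j).card : ℝ)⁻¹ *
        ∑ z ∈ pr B L j,
        (((range N).filter fun n : ℕ => ((n : ℕ) : ZMod p) + z.1 = x * (z.2 - z.1)).card : ℝ) =
        ∑ j ∈ range p, ((cl B L j).card : ℝ)⁻¹ * ∑ z ∈ pr B L j,
        (((range N).filter fun n : ℕ => ((n : ℕ) : ZMod p) + z.1 = x * (z.2 - z.1)).card : ℝ) := by
      refine Finset.sum_subset (Finset.filter_subset _ _) fun j hj hj2 => ?_
      rw [mem_filter, not_and] at hj2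
      have h2 := hj2 hj
      rw [hzero j (by omega)]
      simp
    rw [← e1]
    refine Finset.sum_le_sum_of_subset_of_nonneg ?_ ?_
    · intro j hj
      rw [mem_filter] at hj
      exact mem_range.2 hj.2
    · intro j _ _
      positivity
  refine e0.trans ?_
  refine (Finset.sum_le_sum fun j _ => hcell j).trans (le_of_eq ?_)
  rw [Finset.sum_comm]
  refine Finset.sum_congr rfl fun h _ => ?_
  unfold FF
  rfl

end Pool.Agent.PY2
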